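import Pool.Agent.R859.QB.Merge

/-!
# The case of one index
-/

set_option autoImplicit false

open Finset

namespace Pool.Agent.R859.QB

noncomputable section

/-- `x_k = q^(-k) [k]^2` -/
def x (k : ℕ) : K := q ^ (-(k : ℤ)) * qn k ^ 2

theorem isG_x {R : Type} [CommSemiring R] {f : R →+* ℚ} (k : ℕ) : IsG f (x k) :=
  (IsG.q_zpow _).mul ((IsG.qn k).pow 2)

theorem sq_sub (v c : ℕ) :
    qn (v + c) ^ 2 - q ^ c * qn v ^ 2 = qn c * qn (2 * v + c) := by
  have h1 : qn (v + c) = qn c + q ^ c * qn v := by rw [add_comm, qn_add]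
  have h2 : qn (v + c) = qn v + q ^ v * qn c := qn_add v c
  have h3 : qn (2 * v + c) = qn (v + c) + q ^ (v + c) * qn v := by
    rw [show 2 * v + c = (v + c) + v by ring, qn_add]
  rw [h3, pow_add]
  linear_combination (qn (v + c)) * h1 + q ^ c * qn v * h2

theorem x_sub (v c : ℕ) :
    x (v + c) - x v = q ^ (-((v + c : ℕ) : ℤ)) * (qn c * qn (2 * v + c)) := by
  rw [← sq_sub, x, x]
  have h1 : q ^ (-(v : ℤ)) = q ^ (-((v + c : ℕ) : ℤ)) * q ^ c := by
    rw [← zpow_natCast q c, ← zpow_add₀ q_ne]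
    congr 1
    push_cast
    ring
  rw [h1]
  ring

theorem x_mul_g (n k : ℕ) :
    (x (n + 1) - x k) * g (n + 1) k = q ^ (-((n + 1 : ℕ) : ℤ)) * g n k := by
  rcases Nat.lt_or_ge (n + 1) k with h1 | h1
  · rw [g_zero h1, g_zero (by omega)]; ring
  rcases Nat.eq_or_lt_of_le h1 with h2 | h2
  · rw [← h2, sub_self, g_zero (show n < k by omega)]; ring
  · obtain ⟨c, rfl⟩ := Nat.exists_eq_add_of_le (show k ≤ n by omega)
    have e1 : k + c + 1 = k + (c + 1) := by ring
    rw [e1, x_sub, g, if_pos (by omega), g, if_pos (by omega)]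
    have e2 : k + (c + 1) + k = (2 * k + c) + 1 := by ring
    have e3 : k + (c + 1) - k = c + 1 := by omega
    have e4 : k + c + k = 2 * k + c := by ring
    have e5 : k + c - k = c := by omega
    rw [e2, e3, e4, e5, qf_succ, qf_succ]
    have := qf_ne (2 * k + c)
    have := qf_ne c
    have := qn_succ_ne (2 * k + c)
    have := qn_succ_ne c
    have e6 : 2 * k + (c + 1) = 2 * k + c + 1 := by ring
    rw [e6]
    field_simp

/-- Newton products -/
def np (a s k : ℕ) : K := ∏ i ∈ range s, (x k - x (a + i))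

theorem np_succ (a s k : ℕ) : np a (s + 1) k = np a s k * (x k - x (a + s)) := by
  rw [np, Finset.prod_range_succ]; rfl

/-- the weight without the powers of `x_k` -/
def t (j : ℤ) (k : ℕ) : K := q ^ (j * (k : ℤ) ^ 2 - k) * qn (2 * k)

/-- the auxiliary sums -/
def Z (a L : ℕ) (j : ℤ) (r s n : ℕ) : K :=
  ∑ k ∈ Ico a L, t j k * g n k * x k ^ r * np a s k

theorem Z_succ_r (a L : ℕ) (j : ℤ) (r s n : ℕ) :
    Z a L j (r + 1) s n = Z a L j r (s + 1) n + x (a + s) * Z a L j r s n := by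
  rw [Z, Z, Z, Finset.mul_sum, ← Finset.sum_add_distrib]
  refine Finset.sum_congr rfl fun k _ => ?_
  rw [np_succ]
  ring

theorem Z_succ_s (a L : ℕ) (j : ℤ) (s n : ℕ) :
    Z a L j 0 (s + 1) (n + 1) = (x (n + 1) - x (a + s)) * Z a L j 0 s (n + 1) -
      q ^ (-((n + 1 : ℕ) : ℤ)) * Z a L j 0 s n := by
  rw [Z, Z, Z, Finset.mul_sum, Finset.mul_sum, ← Finset.sum_sub_distrib]
  refine Finset.sum_congr rfl fun k _ => ?_
  rw [np_succ]
  have h1 := x_mul_g n k
  linear_combination (-(t j k) * np a s k) * h1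

theorem Z_zero_of_lt (a L : ℕ) (j : ℤ) (s n : ℕ) (hn : n < a) : Z a L j 0 s n = 0 := by
  refine Finset.sum_eq_zero fun k hk => ?_
  have := (Finset.mem_Ico.1 hk).1
  rw [g_zero (by omega)]
  ring

theorem Z_zero_zero (L : ℕ) (j : ℤ) (s : ℕ) : Z 0 L j 0 s 0 = 0 := by
  refine Finset.sum_eq_zero fun k _ => ?_
  rcases Nat.eq_zero_or_pos k with h1 | h1
  · subst h1
    rw [t, mul_zero, qn_zero]; ring
  · rw [g_zero h1]; ring

theorem qn_mul_qb1 {N s : ℕ} (hs : s ≤ N) : qn (N - s) * qb N s = qn (s + 1) * qb N (s + 1) := by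
  rcases Nat.eq_or_lt_of_le hs with h1 | h1
  · subst h1
    rw [Nat.sub_self, qn_zero, qb_eq_zero (Nat.lt_succ_self s)]; ring
  · obtain ⟨c, rfl⟩ := Nat.exists_eq_add_of_lt h1
    rw [qb_eq (by omega), qb_eq (by omega)]
    have e1 : s + c + 1 - s = c + 1 := by omega
    have e2 : s + c + 1 - (s + 1) = c := by omega
    rw [e1, e2, qf_succ s, qf_succ c]
    have := qf_ne s
    have := qf_ne c
    have := qn_succ_ne s
    have := qn_succ_ne c
    field_simp

theorem qn_mul_qb2 {N s : ℕ} (hs : s ≤ N + 1) :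
    qn (N + 1) * qb N s = qn (N + 1 - s) * qb (N + 1) s := by
  rcases Nat.eq_or_lt_of_le hs with h1 | h1
  · subst h1
    rw [Nat.sub_self, qn_zero, qb_eq_zero (Nat.lt_succ_self N)]; ring
  · obtain ⟨c, rfl⟩ := Nat.exists_eq_add_of_le (show s ≤ N by omega)
    rw [qb_eq (by omega), qb_eq (by omega)]
    have e1 : s + c - s = c := by omega
    have e2 : s + c + 1 - s = c + 1 := by omega
    rw [e1, e2, qf_succ (s + c), qf_succ c]
    have := qf_ne s
    have := qf_ne c
    have := qn_succ_ne c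
    field_simp

/-- closed form of the auxiliary sums with `r = 0` -/
theorem closed (a L : ℕ) (j : ℤ) (e : ℕ → ℕ → ℤ)
    (hbase : ∀ n, a ≤ n → n < L → 1 ≤ n + a →
      qf (n - a) * qf (n + a - 1) * Z a L j 0 0 n = q ^ (e n 0))
    (hstep : ∀ n s, a ≤ n + 1 → s + a ≤ n + 1 →
      qn (n + 1 + a + s) * q ^ (e (n + 1) s) - qn (n + a) * q ^ (e n s) =
        q ^ (e (n + 1) (s + 1) + ((n + 1 : ℕ) : ℤ)) * qn (s + 1)) :
    ∀ s n, a ≤ n → n < L → 1 ≤ n + a →
      qf (n - a) * qf (n + a - 1) * Z a L j 0 s n = q ^ (e n s) * qf s ^ 2 * qb (n - a) s := by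
  intro s
  induction s with
  | zero =>
    intro n h1 h2 h3
    rw [hbase n h1 h2 h3, qf_zero, qb_zero]; ring
  | succ s ih =>
    intro n h1 h2 h3
    cases n with
    | zero => omega
    | succ n =>
      have hY := ih (n + 1) h1 h2 h3
      have e0 : n + 1 + a - 1 = n + a := by omega
      rw [e0] at hY ⊢
      have hY' : qf (n + 1 - a) * qf (n + a) * Z a L j 0 s n =
          qn (n + 1 - a) * qn (n + a) * (q ^ (e n s) * qf s ^ 2 * qb (n - a) s) := by
        rcases Nat.lt_or_ge n a with h4 | h4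
        · rw [Z_zero_of_lt a L j s n h4]
          have : n + 1 - a = 0 := by omega
          rw [this, qn_zero]; ring
        · rcases Nat.eq_zero_or_pos (n + a) with h5 | h5
          · have hn0 : n = 0 := by omega
            have ha0 : a = 0 := by omega
            subst hn0; subst ha0
            rw [Z_zero_zero]
            simp [qn_zero]
          · rw [← ih n h4 (by omega) h5]
            have e1 : n + 1 - a = (n - a) + 1 := by omega
            have e2 : qf (n + a) = qf (n + a - 1) * qn (n + a) := by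
              obtain ⟨c, hc⟩ := Nat.exists_eq_succ_of_ne_zero (show n + a ≠ 0 by omega)
              rw [hc, Nat.succ_eq_add_one, qf_succ]
              congr 2
            rw [e1, qf_succ, e2]
            ring
      rw [Z_succ_s]
      have hmain : qf (n + 1 - a) * qf (n + a) *
          ((x (n + 1) - x (a + s)) * Z a L j 0 s (n + 1) -
            q ^ (-((n + 1 : ℕ) : ℤ)) * Z a L j 0 s n) =
          (x (n + 1) - x (a + s)) * (q ^ (e (n + 1) s) * qf s ^ 2 * qb (n + 1 - a) s) -
          q ^ (-((n + 1 : ℕ) : ℤ)) *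
            (qn (n + 1 - a) * qn (n + a) * (q ^ (e n s) * qf s ^ 2 * qb (n - a) s)) := by
        rw [← hY, ← hY']; ring
      rw [hmain]
      rcases Nat.lt_or_ge (n + 1) (s + a) with h4 | h4
      · rw [qb_eq_zero (show n + 1 - a < s + 1 by omega)]
        rcases Nat.lt_or_ge n a with h5 | h5
        · have e1 : n + 1 - a = 0 := by omega
          rw [e1, qn_zero, qb_eq_zero (show 0 < s by omega)]
          ring
        · rw [qb_eq_zero (show n + 1 - a < s by omega), qb_eq_zero (show n - a < s by omega)]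
          ring
      · -- main case
        have hx : x (n + 1) - x (a + s) =
            q ^ (-((n + 1 : ℕ) : ℤ)) * (qn (n + 1 - a - s) * qn (n + 1 + a + s)) := by
          obtain ⟨c, hc⟩ := Nat.exists_eq_add_of_le (show a + s ≤ n + 1 by omega)
          rw [hc, x_sub]
          have e1 : a + s + c - a - s = c := by omega
          have e2 : a + s + c + a + s = 2 * (a + s) + c := by ring
          rw [e1, e2]
        have hq : qn (n + 1 - a) * qb (n - a) s = qn (n + 1 - a - s) * qb (n + 1 - a) s := by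
          rcases Nat.lt_or_ge n a with h5 | h5
          · have e1 : n + 1 - a = 0 := by omega
            have hs0 : s = 0 := by omega
            rw [e1, hs0]; simp [qn_zero]
          · have e1 : n + 1 - a = (n - a) + 1 := by omega
            rw [e1]
            exact qn_mul_qb2 (by omega)
        have hq2 := qn_mul_qb1 (N := n + 1 - a) (s := s) (by omega)
        have hst := hstep n s h1 h4
        have hz : q ^ (-((n + 1 : ℕ) : ℤ)) * q ^ (e (n + 1) (s + 1) + ((n + 1 : ℕ) : ℤ)) =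
            q ^ (e (n + 1) (s + 1)) := by
          rw [← zpow_add₀ q_ne]
          congr 1
          ring
        rw [hx, qf_succ]
        calc q ^ (-((n + 1 : ℕ) : ℤ)) * (qn (n + 1 - a - s) * qn (n + 1 + a + s)) *
              (q ^ (e (n + 1) s) * qf s ^ 2 * qb (n + 1 - a) s) -
              q ^ (-((n + 1 : ℕ) : ℤ)) *
              (qn (n + 1 - a) * qn (n + a) * (q ^ (e n s) * qf s ^ 2 * qb (n - a) s))
            = q ^ (-((n + 1 : ℕ) : ℤ)) * qf s ^ 2 *
              (qn (n + 1 + a + s) * q ^ (e (n + 1) s) * (qn (n + 1 - a - s) * qb (n + 1 - a) s) -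
                qn (n + a) * q ^ (e n s) * (qn (n + 1 - a) * qb (n - a) s)) := by ring
          _ = q ^ (-((n + 1 : ℕ) : ℤ)) * qf s ^ 2 * (qn (s + 1) * qb (n + 1 - a) (s + 1)) *
              (qn (n + 1 + a + s) * q ^ (e (n + 1) s) - qn (n + a) * q ^ (e n s)) := by
                rw [hq, hq2]; ring
          _ = (q ^ (-((n + 1 : ℕ) : ℤ)) * q ^ (e (n + 1) (s + 1) + ((n + 1 : ℕ) : ℤ))) *
                (qf s * qn (s + 1)) ^ 2 * qb (n + 1 - a) (s + 1) := by
                rw [hst]; ring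
          _ = _ := by rw [hz]

/-- the telescoping quantity -/
def E (n k : ℕ) : K := if k ≤ n then (qf (n + k - 1) * qf (n - k))⁻¹ else 0

theorem E_eq {n k : ℕ} (hk : k ≤ n) (h1 : 1 ≤ n + k) : E n k = qn (n + k) * g n k := by
  rw [E, if_pos hk, g, if_pos hk]
  obtain ⟨c, hc⟩ := Nat.exists_eq_succ_of_ne_zero (show n + k ≠ 0 by omega)
  rw [hc, Nat.succ_eq_add_one, qf_succ, Nat.add_sub_cancel]
  have := qf_ne c
  have := qf_ne (n - k)
  have := qn_succ_ne c
  field_simp

theorem E_succ {n k : ℕ} (hk : k ≤ n) : E n (k + 1) = qn (n - k) * g n k := by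
  rcases Nat.eq_or_lt_of_le hk with h1 | h1
  · subst h1
    rw [E, if_neg (by omega), Nat.sub_self, qn_zero]; ring
  · rw [E, if_pos (by omega), g, if_pos hk]
    obtain ⟨c, hc⟩ := Nat.exists_eq_add_of_lt h1
    have e1 : n - (k + 1) = c := by omega
    have e2 : n - k = c + 1 := by omega
    have e3 : n + (k + 1) - 1 = n + k := by omega
    rw [e1, e2, e3, qf_succ]
    have := qf_ne c
    have := qf_ne (n + k)
    have := qn_succ_ne c
    field_simp

theorem sum_Ico_telescope (u : ℕ → K) {a L : ℕ} (h : a ≤ L) :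
    ∑ k ∈ Ico a L, (u k - u (k + 1)) = u a - u L := by
  induction L, h using Nat.le_induction with
  | base => simp
  | succ L hL ih => rw [Finset.sum_Ico_succ_top hL, ih]; ring

theorem base0 {a L n : ℕ} (h1 : a ≤ n) (h2 : n < L) (h3 : 1 ≤ n + a) :
    qf (n - a) * qf (n + a - 1) * Z a L 0 0 0 n = q ^ (-(n : ℤ)) := by
  have hterm : ∀ k ∈ Ico a L, t 0 k * g n k * x k ^ 0 * np a 0 k =
      q ^ (-(n : ℤ)) * E n k - q ^ (-(n : ℤ)) * E n (k + 1) := by
    intro k hk
    have hk' := Finset.mem_Ico.1 hk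
    rw [np, Finset.prod_range_zero, pow_zero, mul_one, mul_one]
    rcases Nat.lt_or_ge n k with h4 | h4
    · rw [g_zero h4, E, if_neg (by omega), E, if_neg (by omega)]; ring
    · rw [E_eq h4 (by omega), E_succ h4, t]
      have e1 : qn (n + k) = qn (n - k) + q ^ (n - k) * qn (2 * k) := by
        rw [← qn_add]; congr 1; omega
      have e2 : q ^ ((0 : ℤ) * (k : ℤ) ^ 2 - k) = q ^ (-(n : ℤ)) * q ^ (n - k) := by
        rw [← zpow_natCast q (n - k), ← zpow_add₀ q_ne]
        congr 1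
        push_cast [Nat.cast_sub h4]
        ring
      rw [e1, e2]
      ring
  rw [Z, Finset.sum_congr rfl hterm, sum_Ico_telescope (fun k => q ^ (-(n : ℤ)) * E n k) (by omega)]
  rw [show E n L = 0 by rw [E, if_neg (by omega)], E, if_pos h1]
  have := qf_ne (n - a)
  have := qf_ne (n + a - 1)
  field_simp
  ring

theorem base1 {a L n : ℕ} (h1 : a ≤ n) (h2 : n < L) (h3 : 1 ≤ n + a) :
    qf (n - a) * qf (n + a - 1) * Z a L 1 0 0 n = q ^ ((a : ℤ) ^ 2 - a) := by
  have hterm : ∀ k ∈ Ico a L, t 1 k * g n k * x k ^ 0 * np a 0 k =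
      q ^ ((k : ℤ) ^ 2 - k) * E n k - q ^ (((k + 1 : ℕ) : ℤ) ^ 2 - ((k + 1 : ℕ) : ℤ)) *
        E n (k + 1) := by
    intro k hk
    have hk' := Finset.mem_Ico.1 hk
    rw [np, Finset.prod_range_zero, pow_zero, mul_one, mul_one]
    rcases Nat.lt_or_ge n k with h4 | h4
    · rw [g_zero h4, E, if_neg (by omega), E, if_neg (by omega)]; ring
    · rw [E_eq h4 (by omega), E_succ h4, t]
      have e1 : qn (n + k) = qn (2 * k) + q ^ (2 * k) * qn (n - k) := by
        rw [← qn_add]; congr 1; omega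
      have e2 : q ^ (((k + 1 : ℕ) : ℤ) ^ 2 - ((k + 1 : ℕ) : ℤ)) =
          q ^ ((k : ℤ) ^ 2 - k) * q ^ (2 * k) := by
        rw [← zpow_natCast q (2 * k), ← zpow_add₀ q_ne]
        congr 1
        push_cast
        ring
      rw [e1, e2, one_mul]
      ring
  rw [Z, Finset.sum_congr rfl hterm,
    sum_Ico_telescope (fun k => q ^ ((k : ℤ) ^ 2 - k) * E n k) (by omega)]
  rw [show E n L = 0 by rw [E, if_neg (by omega)], E, if_pos h1]
  have := qf_ne (n - a)
  have := qf_ne (n + a - 1)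
  field_simp
  ring

theorem closed0 (a L : ℕ) : ∀ s n, a ≤ n → n < L → 1 ≤ n + a →
    qf (n - a) * qf (n + a - 1) * Z a L 0 0 s n =
      q ^ (-((s : ℤ) + 1) * n) * qf s ^ 2 * qb (n - a) s := by
  apply closed a L 0 (fun n s => -((s : ℤ) + 1) * n)
  · intro n h1 h2 h3
    rw [base0 h1 h2 h3]
    congr 1
    push_cast
    ring
  · intro n s _ _
    have e1 : qn (n + 1 + a + s) = qn (s + 1) + q ^ (s + 1) * qn (n + a) := by
      rw [← qn_add]; congr 1; ring
    have e2 : q ^ (-((s : ℤ) + 1) * (n : ℕ)) =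
        q ^ (-((s : ℤ) + 1) * ((n + 1 : ℕ) : ℤ)) * q ^ (s + 1) := by
      rw [← zpow_natCast q (s + 1), ← zpow_add₀ q_ne]
      congr 1
      push_cast
      ring
    have e3 : -(((s + 1 : ℕ) : ℤ) + 1) * ((n + 1 : ℕ) : ℤ) + ((n + 1 : ℕ) : ℤ) =
        -((s : ℤ) + 1) * ((n + 1 : ℕ) : ℤ) := by
      push_cast; ring
    rw [e1, e2, e3]
    ring

theorem closed1 (a L : ℕ) : ∀ s n, a ≤ n → n < L → 1 ≤ n + a →
    qf (n - a) * qf (n + a - 1) * Z a L 1 0 s n =
      q ^ ((a : ℤ) ^ 2 - a + s * ((a : ℤ) - 1)) * qf s ^ 2 * qb (n - a) s := by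
  apply closed a L 1 (fun _ s => (a : ℤ) ^ 2 - a + s * ((a : ℤ) - 1))
  · intro n h1 h2 h3
    rw [base1 h1 h2 h3]
    congr 1
    push_cast
    ring
  · intro n s _ _
    have e1 : qn (n + 1 + a + s) = qn (n + a) + q ^ (n + a) * qn (s + 1) := by
      rw [← qn_add]; congr 1; ring
    have e2 : q ^ ((a : ℤ) ^ 2 - a + ((s + 1 : ℕ) : ℤ) * ((a : ℤ) - 1) + ((n + 1 : ℕ) : ℤ)) =
        q ^ ((a : ℤ) ^ 2 - a + s * ((a : ℤ) - 1)) * q ^ (n + a) := by
      rw [← zpow_natCast q (n + a), ← zpow_add₀ q_ne]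
      congr 1
      push_cast
      ring
    rw [e1, e2]
    ring

theorem Z_NN (a L : ℕ) (j : ℤ) (hj : j = 0 ∨ j = 1) : ∀ r s n, a ≤ n → n < L → 1 ≤ n + a →
    IsNN (qf (n - a) * qf (n + a - 1) * Z a L j r s n) := by
  intro r
  induction r with
  | zero =>
    intro s n h1 h2 h3
    rcases hj with rfl | rfl
    · rw [closed0 a L s n h1 h2 h3]
      exact ((IsG.q_zpow _).mul ((IsG.qf s).pow 2)).mul (IsG.qb _ _)
    · rw [closed1 a L s n h1 h2 h3]
      exact ((IsG.q_zpow _).mul ((IsG.qf s).pow 2)).mul (IsG.qb _ _)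
  | succ r ih =>
    intro s n h1 h2 h3
    have h4 := ih (s + 1) n h1 h2 h3
    have h5 : IsNN (x (a + s) * (qf (n - a) * qf (n + a - 1) * Z a L j r s n)) :=
      (isG_x _).mul (ih s n h1 h2 h3)
    have h6 : qf (n - a) * qf (n + a - 1) * Z a L j (r + 1) s n =
        qf (n - a) * qf (n + a - 1) * Z a L j r (s + 1) n +
        x (a + s) * (qf (n - a) * qf (n + a - 1) * Z a L j r s n) := by
      rw [Z_succ_r]; ring
    rw [h6]
    exact h4.add h5

end

end Pool.Agent.R859.QB
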