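import Mathlib

/-!
# q-numbers, q-binomial coefficients and four summation formulas in `ℚ(q)`
-/

set_option autoImplicit false

open Finset

namespace Pool.Agent.R859.QB

noncomputable section

/-- the field `ℚ(q)` -/
abbrev K := RatFunc ℚ

/-- the indeterminate -/
def q : K := RatFunc.X

theorem q_ne : q ≠ 0 := RatFunc.X_ne_zero

/-- `[n] = 1 + q + ... + q^(n-1)` -/
def qn (n : ℕ) : K := ∑ i ∈ range n, q ^ i

theorem qn_zero : qn 0 = 0 := by simp [qn]

theorem qn_one : qn 1 = 1 := by simp [qn]

theorem qn_add (a b : ℕ) : qn (a + b) = qn a + q ^ a * qn b := by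
  simp only [qn, Finset.sum_range_add, Finset.mul_sum, pow_add]

theorem qn_succ (n : ℕ) : qn (n + 1) = qn n + q ^ n := by rw [qn_add, qn_one, mul_one]

theorem one_sub_q_mul (n : ℕ) : (1 - q) * qn n = 1 - q ^ n := mul_neg_geom_sum q n

theorem qn_ne_zero {n : ℕ} (hn : n ≠ 0) : qn n ≠ 0 := by
  have h : qn n = algebraMap (Polynomial ℚ) K (∑ i ∈ range n, Polynomial.X ^ i) := by
    rw [map_sum, qn]
    refine Finset.sum_congr rfl fun i _ => ?_
    rw [map_pow, RatFunc.algebraMap_X]
    rfl
  rw [h]
  intro h0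
  have h1 : (∑ i ∈ range n, (Polynomial.X : Polynomial ℚ) ^ i) = 0 := by
    apply RatFunc.algebraMap_injective ℚ
    rw [h0, map_zero]
  have h2 := congrArg (fun p : Polynomial ℚ => p.coeff 0) h1
  simp only [Polynomial.finsetSum_coeff, Polynomial.coeff_X_pow, Polynomial.coeff_zero] at h2
  rw [Finset.sum_eq_single 0] at h2
  · simp at h2
  · intro b _ hb
    rw [if_neg (Ne.symm hb)]
  · intro h3
    exact absurd (Finset.mem_range.2 (Nat.pos_of_ne_zero hn)) h3

theorem qn_succ_ne (n : ℕ) : qn (n + 1) ≠ 0 := qn_ne_zero (Nat.succ_ne_zero n)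

/-- q-factorial -/
def qf : ℕ → K
  | 0 => 1
  | n + 1 => qf n * qn (n + 1)

theorem qf_zero : qf 0 = 1 := rfl

theorem qf_succ (n : ℕ) : qf (n + 1) = qf n * qn (n + 1) := rfl

theorem qf_ne (n : ℕ) : qf n ≠ 0 := by
  induction n with
  | zero => rw [qf_zero]; exact one_ne_zero
  | succ n ih => rw [qf_succ]; exact mul_ne_zero ih (qn_succ_ne n)

/-- q-binomial coefficients by the Pascal rule -/
def qb : ℕ → ℕ → K
  | _, 0 => 1
  | 0, _ + 1 => 0
  | n + 1, k + 1 => qb n k + q ^ (k + 1) * qb n (k + 1)

theorem qb_zero (n : ℕ) : qb n 0 = 1 := by cases n <;> rfl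

theorem qb_zero_succ (k : ℕ) : qb 0 (k + 1) = 0 := rfl

theorem pascal1 (n k : ℕ) : qb (n + 1) (k + 1) = qb n k + q ^ (k + 1) * qb n (k + 1) := rfl

theorem qb_eq_zero : ∀ {n k : ℕ}, n < k → qb n k = 0 := by
  intro n
  induction n with
  | zero =>
    intro k hk
    obtain ⟨c, rfl⟩ := Nat.exists_eq_succ_of_ne_zero (by omega : k ≠ 0)
    rfl
  | succ n ih =>
    intro k hk
    obtain ⟨c, rfl⟩ := Nat.exists_eq_succ_of_ne_zero (by omega : k ≠ 0)
    rw [Nat.succ_eq_add_one, pascal1, ih (by omega), ih (by omega)]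
    ring

theorem qb_self (n : ℕ) : qb n n = 1 := by
  induction n with
  | zero => rfl
  | succ n ih => rw [pascal1, ih, qb_eq_zero (Nat.lt_succ_self n)]; ring

theorem qb_fact : ∀ (a b : ℕ), qb (a + b) a * qf a * qf b = qf (a + b) := by
  intro a
  induction a with
  | zero => intro b; rw [qb_zero, qf_zero, Nat.zero_add]; ring
  | succ a iha =>
    intro b
    induction b with
    | zero => rw [Nat.add_zero, qb_self, qf_zero]; ring
    | succ b ihb =>
      have e1 : a + 1 + (b + 1) = (a + (b + 1)) + 1 := by ring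
      rw [e1, pascal1]
      have h1 := iha (b + 1)
      have h2 := ihb
      have e2 : a + 1 + b = a + (b + 1) := by ring
      rw [e2] at h2
      have e3 : qf (a + (b + 1) + 1) = qf (a + (b + 1)) * qn ((a + 1) + (b + 1)) := by
        rw [qf_succ]; congr 2; ring
      rw [e3, qn_add]
      calc (qb (a + (b + 1)) a + q ^ (a + 1) * qb (a + (b + 1)) (a + 1)) * qf (a + 1) * qf (b + 1)
          = qn (a + 1) * (qb (a + (b + 1)) a * qf a * qf (b + 1)) +
            q ^ (a + 1) * qn (b + 1) * (qb (a + (b + 1)) (a + 1) * qf (a + 1) * qf b) := by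
            rw [qf_succ a, qf_succ b]; ring
        _ = _ := by rw [h1, h2]; ring

theorem qb_eq {n k : ℕ} (h : k ≤ n) : qb n k = qf n / (qf k * qf (n - k)) := by
  obtain ⟨b, rfl⟩ := Nat.exists_eq_add_of_le h
  rw [← qb_fact k b, Nat.add_sub_cancel_left]
  have := qf_ne k
  have := qf_ne b
  field_simp

theorem pascal2 {n k : ℕ} (h : k ≤ n) :
    qb (n + 1) (k + 1) = q ^ (n - k) * qb n k + qb n (k + 1) := by
  rcases Nat.eq_or_lt_of_le h with h1 | h1
  · subst h1
    rw [qb_self, qb_self, qb_eq_zero (Nat.lt_succ_self k)]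
    simp
  · obtain ⟨c, rfl⟩ := Nat.exists_eq_add_of_lt h1
    rw [qb_eq (by omega), qb_eq (by omega), qb_eq (by omega)]
    have e1 : k + c + 1 + 1 - (k + 1) = c + 1 := by omega
    have e2 : k + c + 1 - k = c + 1 := by omega
    have e3 : k + c + 1 - (k + 1) = c := by omega
    rw [e1, e2, e3, qf_succ (k + c + 1), qf_succ k, qf_succ c]
    have e4 : k + c + 1 + 1 = (c + 1) + (k + 1) := by ring
    rw [e4, qn_add]
    have := qf_ne k
    have := qf_ne c
    have := qn_succ_ne k
    have := qn_succ_ne c
    field_simp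
    ring

/-- first q-Vandermonde formula -/
theorem vand1 : ∀ (A C D : ℕ),
    ∑ i ∈ range (C + 1), q ^ (i * (D + i)) * qb A i * qb (C + D) (C - i) = qb (A + C + D) C := by
  intro A
  induction A with
  | zero =>
    intro C D
    rw [Finset.sum_range_succ', Finset.sum_eq_zero]
    · rw [qb_zero]; simp
    · intro i _
      rw [qb_zero_succ]; ring
  | succ A ih =>
    intro C D
    cases C with
    | zero => simp [qb_zero]
    | succ C =>
      have e0 : A + 1 + (C + 1) + D = (A + (C + 1) + D) + 1 := by ring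
      rw [e0, pascal2 (by omega), ← ih (C + 1) D]
      have e1 : A + (C + 1) + D = A + C + (D + 1) := by ring
      have e2 : qb (A + (C + 1) + D) C = qb (A + C + (D + 1)) C := by rw [e1]
      rw [e2, ← ih C (D + 1)]
      rw [Finset.sum_range_succ' _ (C + 1), Finset.sum_range_succ' _ (C + 1), Finset.mul_sum,
        ← add_assoc, ← Finset.sum_add_distrib]
      have e5 : A + (C + 1) + D - C = A + D + 1 := by omega
      rw [e5]
      congr 1
      · refine Finset.sum_congr rfl fun i hi => ?_
        have hi' : i ≤ C := Nat.lt_succ_iff.1 (Finset.mem_range.1 hi)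
        have e3 : C + 1 - (i + 1) = C - i := by omega
        have e4 : C + 1 + D = C + (D + 1) := by ring
        rw [e3, e4]
        by_cases hA : i ≤ A
        · rw [pascal2 hA]
          have e6 : q ^ ((i + 1) * (D + (i + 1))) * q ^ (A - i) =
              q ^ (A + D + 1) * q ^ (i * (D + 1 + i)) := by
            rw [← pow_add, ← pow_add]
            congr 1
            obtain ⟨c, rfl⟩ := Nat.exists_eq_add_of_le hA
            rw [Nat.add_sub_cancel_left]
            ring
          linear_combination (qb A i * qb (C + (D + 1)) (C - i)) * e6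
        · rw [qb_eq_zero (show A + 1 < i + 1 by omega), qb_eq_zero (show A < i + 1 by omega),
            qb_eq_zero (show A < i by omega)]
          ring
      · rw [qb_zero, qb_zero]

/-- second q-Vandermonde formula -/
theorem vand2 : ∀ (A B C : ℕ),
    ∑ i ∈ range (C + 1), q ^ ((A - i) * (C - i)) * qb A i * qb B (C - i) = qb (A + B) C := by
  intro A
  induction A with
  | zero =>
    intro B C
    rw [Finset.sum_range_succ', Finset.sum_eq_zero]
    · rw [qb_zero]; simp
    · intro i _
      rw [qb_zero_succ]; ring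
  | succ A ih =>
    intro B C
    cases C with
    | zero => simp [qb_zero]
    | succ C =>
      have e0 : A + 1 + B = (A + B) + 1 := by ring
      rw [e0, pascal1, ← ih B (C + 1), ← ih B C]
      rw [Finset.sum_range_succ' _ (C + 1), Finset.sum_range_succ' _ (C + 1), mul_add,
        Finset.mul_sum, ← add_assoc, ← Finset.sum_add_distrib]
      congr 1
      · refine Finset.sum_congr rfl fun i hi => ?_
        have hi' : i ≤ C := Nat.lt_succ_iff.1 (Finset.mem_range.1 hi)
        have e3 : C + 1 - (i + 1) = C - i := by omega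
        have e4 : A + 1 - (i + 1) = A - i := by omega
        rw [e3, e4, pascal1]
        by_cases hA : i + 1 ≤ A
        · have e6 : q ^ ((A - i) * (C - i)) * q ^ (i + 1) =
              q ^ (C + 1) * q ^ ((A - (i + 1)) * (C - i)) := by
            rw [← pow_add, ← pow_add]
            congr 1
            obtain ⟨c, rfl⟩ := Nat.exists_eq_add_of_le hA
            obtain ⟨d, rfl⟩ := Nat.exists_eq_add_of_le hi'
            have h1 : i + 1 + c - i = c + 1 := by omega
            rw [h1, Nat.add_sub_cancel_left, Nat.add_sub_cancel_left]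
            ring
          linear_combination (qb A (i + 1) * qb B (C - i)) * e6
        · rw [qb_eq_zero (show A < i + 1 by omega)]
          ring
      · rw [qb_zero, qb_zero]
        simp only [Nat.sub_zero, mul_one]
        rw [← mul_assoc, ← pow_add]
        congr 2
        ring

/-- third summation formula -/
theorem sum3 : ∀ (N D : ℕ),
    ∑ i ∈ range (N + 1), q ^ (i * (i + D)) * qb N i * (1 - q) ^ (N - i) *
      (qf (N + D) / qf (D + i)) = 1 := by
  intro N
  induction N with
  | zero =>
    intro D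
    simp [qb_zero, qf_ne D]
  | succ N ih =>
    intro D
    have hA : (1 - q ^ (D + N + 1)) = (1 - q) * qn (N + D + 1) := by
      rw [one_sub_q_mul]; congr 2; ring
    have h1 : ∑ i ∈ range (N + 2), q ^ (i * (i + D)) * qb (N + 1) i * (1 - q) ^ (N + 1 - i) *
      (qf (N + 1 + D) / qf (D + i)) =
        (1 - q ^ (D + N + 1)) * ∑ i ∈ range (N + 1), q ^ (i * (i + D)) * qb N i * (1 - q) ^ (N - i) *
          (qf (N + D) / qf (D + i)) +
        q ^ (D + N + 1) * ∑ i ∈ range (N + 1), q ^ (i * (i + (D + 1))) * qb N i *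
          (1 - q) ^ (N - i) * (qf (N + (D + 1)) / qf (D + 1 + i)) := by
      rw [Finset.sum_range_succ' _ (N + 1)]
      have h2 : ∑ i ∈ range (N + 1), q ^ (i * (i + D)) * qb N i * (1 - q) ^ (N - i) *
          (qf (N + D) / qf (D + i)) =
          ∑ i ∈ range (N + 1), q ^ ((i + 1) * (i + 1 + D)) * qb N (i + 1) *
            (1 - q) ^ (N - (i + 1)) * (qf (N + D) / qf (D + (i + 1))) +
          q ^ (0 * (0 + D)) * qb N 0 * (1 - q) ^ (N - 0) * (qf (N + D) / qf (D + 0)) := by
        rw [← Finset.sum_range_succ' (fun i => q ^ (i * (i + D)) * qb N i * (1 - q) ^ (N - i) *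
          (qf (N + D) / qf (D + i))) (N + 1), Finset.sum_range_succ _ (N + 1),
          qb_eq_zero (Nat.lt_succ_self N)]
        ring
      rw [h2, mul_add (1 - q ^ (D + N + 1)), Finset.mul_sum, Finset.mul_sum]
      have e1 : qf (N + 1 + D) = qf (N + D) * qn (N + D + 1) := by
        rw [show N + 1 + D = (N + D) + 1 by ring, qf_succ]
      have key : ∀ L1 L2 R1 R2 R3 : K, L1 = R1 + R3 → L2 = R2 → L1 + L2 = R1 + R2 + R3 := by
        intro L1 L2 R1 R2 R3 h h'
        rw [h, h']; ring
      refine key _ _ _ _ _ ?_ ?_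
      · rw [← Finset.sum_add_distrib]
        refine Finset.sum_congr rfl fun i hi => ?_
        have hi' : i ≤ N := Nat.lt_succ_iff.1 (Finset.mem_range.1 hi)
        have e3 : N + 1 - (i + 1) = N - i := by omega
        have e4 : N + (D + 1) = N + 1 + D := by ring
        have e5 : D + 1 + i = D + (i + 1) := by ring
        rw [pascal2 hi', e3, e4, e5, e1, hA]
        have e6 : q ^ ((i + 1) * (i + 1 + D)) * q ^ (N - i) =
            q ^ (D + N + 1) * q ^ (i * (i + (D + 1))) := by
          rw [← pow_add, ← pow_add]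
          congr 1
          obtain ⟨c, rfl⟩ := Nat.exists_eq_add_of_le hi'
          rw [Nat.add_sub_cancel_left]
          ring
        rcases Nat.eq_or_lt_of_le hi' with h5 | h5
        · subst h5
          rw [qb_eq_zero (Nat.lt_succ_self i)]
          linear_combination (qb i i * (1 - q) ^ (i - i) *
            (qf (i + D) * qn (i + D + 1) / qf (D + (i + 1)))) * e6
        · have e7 : (1 - q) ^ (N - i) = (1 - q) ^ (N - (i + 1)) * (1 - q) := by
            rw [← pow_succ]; congr 1; omega
          have e8 : q ^ ((i + 1) * (i + 1 + D)) * (q ^ (N - i) * qb N i + qb N (i + 1)) *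
              (1 - q) ^ (N - i) * (qf (N + D) * qn (N + D + 1) / qf (D + (i + 1))) =
              q ^ ((i + 1) * (i + 1 + D)) * q ^ (N - i) * (qb N i *
              (1 - q) ^ (N - i) * (qf (N + D) * qn (N + D + 1) / qf (D + (i + 1)))) +
              q ^ ((i + 1) * (i + 1 + D)) * qb N (i + 1) *
              (1 - q) ^ (N - i) * (qf (N + D) * qn (N + D + 1) / qf (D + (i + 1))) := by ring
          rw [e8, e6]
          rw [e7]
          ring
      · rw [qb_zero, qb_zero, e1, hA]
        simp only [Nat.sub_zero]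
        rw [pow_succ]
        ring
    rw [h1, ih D, ih (D + 1)]
    ring

/-- fourth summation formula -/
theorem sum4 : ∀ (N D : ℕ),
    ∑ i ∈ range (N + 1), (-1) ^ (N - i) * q ^ ((N - i) * (N - i - 1) / 2) * qb N i *
      (1 - q) ^ (N - i) * (qf (N + D) / qf (D + i)) = q ^ (N * (N + D)) := by
  intro N
  induction N with
  | zero =>
    intro D
    simp [qb_zero, qf_ne D]
  | succ N ih =>
    intro D
    have hA : (1 - q ^ (D + N + 1)) = (1 - q) * qn (N + D + 1) := by
      rw [one_sub_q_mul]; congr 2; ring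
    have htri : ∀ x : ℕ, (x + 1) * (x + 1 - 1) / 2 = x * (x - 1) / 2 + x := by
      intro x
      have := Finset.sum_range_succ (fun i : ℕ => i) x
      rw [Finset.sum_range_id, Finset.sum_range_id] at this
      exact this
    have e1 : qf (N + 1 + D) = qf (N + D) * qn (N + D + 1) := by
      rw [show N + 1 + D = (N + D) + 1 by ring, qf_succ]
    have h1 : ∑ i ∈ range (N + 2), (-1) ^ (N + 1 - i) * q ^ ((N + 1 - i) * (N + 1 - i - 1) / 2) *
        qb (N + 1) i * (1 - q) ^ (N + 1 - i) * (qf (N + 1 + D) / qf (D + i)) =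
        (∑ i ∈ range (N + 1), (-1) ^ (N - i) * q ^ ((N - i) * (N - i - 1) / 2) * qb N i *
          (1 - q) ^ (N - i) * (qf (N + (D + 1)) / qf (D + 1 + i))) -
        q ^ N * (1 - q ^ (D + N + 1)) *
          ∑ i ∈ range (N + 1), (-1) ^ (N - i) * q ^ ((N - i) * (N - i - 1) / 2) * qb N i *
          (1 - q) ^ (N - i) * (qf (N + D) / qf (D + i)) := by
      rw [Finset.sum_range_succ' _ (N + 1)]
      have h2 : ∑ i ∈ range (N + 1), (-1) ^ (N - i) * q ^ ((N - i) * (N - i - 1) / 2) * qb N i *
          (1 - q) ^ (N - i) * (qf (N + D) / qf (D + i)) =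
          ∑ i ∈ range (N + 1), (-1) ^ (N - (i + 1)) *
            q ^ ((N - (i + 1)) * (N - (i + 1) - 1) / 2) * qb N (i + 1) *
            (1 - q) ^ (N - (i + 1)) * (qf (N + D) / qf (D + (i + 1))) +
          (-1) ^ (N - 0) * q ^ ((N - 0) * (N - 0 - 1) / 2) * qb N 0 *
            (1 - q) ^ (N - 0) * (qf (N + D) / qf (D + 0)) := by
        rw [← Finset.sum_range_succ' (fun i => (-1 : K) ^ (N - i) * q ^ ((N - i) * (N - i - 1) / 2) *
          qb N i * (1 - q) ^ (N - i) * (qf (N + D) / qf (D + i))) (N + 1),
          Finset.sum_range_succ _ (N + 1), qb_eq_zero (Nat.lt_succ_self N)]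
        ring
      rw [h2, mul_add (q ^ N * (1 - q ^ (D + N + 1))), Finset.mul_sum]
      have key : ∀ L1 L2 R1 R2 R3 : K, L1 = R1 - R2 → L2 = - R3 → L1 + L2 = R1 - (R2 + R3) := by
        intro L1 L2 R1 R2 R3 h h'
        rw [h, h']; ring
      refine key _ _ _ _ _ ?_ ?_
      · rw [← Finset.sum_sub_distrib]
        refine Finset.sum_congr rfl fun i hi => ?_
        have hi' : i ≤ N := Nat.lt_succ_iff.1 (Finset.mem_range.1 hi)
        have e3 : N + 1 - (i + 1) = N - i := by omega
        have e4 : N + (D + 1) = N + 1 + D := by ring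
        have e5 : D + 1 + i = D + (i + 1) := by ring
        rw [pascal1, e3, e4, e5, e1, hA]
        rcases Nat.eq_or_lt_of_le hi' with h5 | h5
        · subst h5
          rw [qb_eq_zero (Nat.lt_succ_self i)]
          ring
        · obtain ⟨c, rfl⟩ := Nat.exists_eq_add_of_lt h5
          have f1 : i + c + 1 - i = c + 1 := by omega
          have f2 : i + c + 1 - (i + 1) = c := by omega
          rw [f1, f2, htri c]
          rw [pow_add q (c * (c - 1) / 2) c, pow_succ (1 - q) c, pow_succ (-1 : K) c]
          have f3 : q ^ (i + c + 1) = q ^ c * q ^ (i + 1) := by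
            rw [← pow_add]; congr 1; ring
          rw [f3]
          ring
      · rw [qb_zero, qb_zero, e1, hA]
        simp only [Nat.sub_zero]
        rw [htri N, pow_add q (N * (N - 1) / 2) N, pow_succ (1 - q) N, pow_succ (-1 : K) N]
        ring
    rw [h1, ih D, ih (D + 1)]
    rw [show (N + 1) * (N + 1 + D) = N * (N + D) + N + (D + N + 1) by ring,
      show N * (N + (D + 1)) = N * (N + D) + N by ring]
    rw [pow_add, pow_add]
    ring

end

end Pool.Agent.R859.QB
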