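import Pool.Agent.R859.QB.Base

/-!
# The cyclic sum
-/

set_option autoImplicit false

open Finset

namespace Pool.Agent.R859.QB

noncomputable section

/-- the weight `w_k` -/
def wt (j : ℤ) (r k : ℕ) : K :=
  q ^ (j * (k : ℤ) ^ 2 - ((r : ℤ) + 1) * k) * qn (2 * k) * qn k ^ (2 * r)

theorem wt_eq (j : ℤ) (r k : ℕ) : wt j r k = t j k * x k ^ r := by
  rw [wt, t, x, mul_pow, ← pow_mul, ← zpow_natCast (q ^ (-(k : ℤ))) r, ← zpow_mul]
  have h1 : q ^ (j * (k : ℤ) ^ 2 - ((r : ℤ) + 1) * k) =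
      q ^ (j * (k : ℤ) ^ 2 - k) * q ^ (-(k : ℤ) * (r : ℤ)) := by
    rw [← zpow_add₀ q_ne]; congr 1; ring
  rw [h1]; ring

theorem wt_zero (j : ℤ) (r : ℕ) : wt j r 0 = 0 := by
  rw [wt, mul_zero, qn_zero]; ring

theorem wt_succ (j : ℤ) (r k : ℕ) : wt (j + 1) r k = q ^ (k ^ 2) * wt j r k := by
  rw [wt, wt, ← zpow_natCast q (k ^ 2)]
  have h1 : q ^ ((j + 1) * (k : ℤ) ^ 2 - ((r : ℤ) + 1) * k) =
      q ^ (((k ^ 2 : ℕ)) : ℤ) * q ^ (j * (k : ℤ) ^ 2 - ((r : ℤ) + 1) * k) := by
    rw [← zpow_add₀ q_ne]; congr 1; push_cast; ring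
  rw [h1]; ring

/-- the weighted sum of a function -/
def T (j : ℤ) (r a L : ℕ) (G : ℕ → K) : K := ∑ k ∈ Ico a L, wt j r k * G k

theorem T_g_eq_Z (j : ℤ) (r a L n : ℕ) : T j r a L (g n) = Z a L j r 0 n := by
  rw [T, Z]
  refine Finset.sum_congr rfl fun k _ => ?_
  rw [wt_eq, np, Finset.prod_range_zero]
  ring

theorem T_zero_of_lt (j : ℤ) (r a L s : ℕ) (G : ℕ → K) (hs : s < a ∨ s + a = 0) :
    T j r a L (fun k => g s k * G k) = 0 := by
  refine Finset.sum_eq_zero fun k hk => ?_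
  show wt j r k * (g s k * G k) = 0
  have h1 := (Finset.mem_Ico.1 hk).1
  rcases hs with hs | hs
  · rw [g_zero (show s < k by omega)]; ring
  · rcases Nat.eq_zero_or_pos k with h2 | h2
    · subst h2; rw [wt_zero]; ring
    · rw [g_zero (show s < k by omega)]; ring

theorem T_congr (j : ℤ) (r a L : ℕ) {F G : ℕ → K} (hFG : ∀ k, F k = G k) :
    T j r a L F = T j r a L G := Finset.sum_congr rfl fun k _ => by rw [hFG]

/-- expand along a merging formula -/
theorem T_expand (j j' : ℤ) (r a L n : ℕ) (F G : ℕ → K) (c : ℕ → K)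
    (hF : ∀ k, wt j r k * F k = wt j' r k * (∑ s ∈ range (n + 1), c s * g s k) * G k) :
    T j r a L F = ∑ s ∈ range (n + 1), c s * T j' r a L (fun k => g s k * G k) := by
  simp only [T, Finset.mul_sum]
  rw [Finset.sum_comm]
  refine Finset.sum_congr rfl fun k _ => ?_
  rw [hF, Finset.mul_sum, Finset.sum_mul]
  refine Finset.sum_congr rfl fun s _ => ?_
  ring

theorem T_up (j : ℤ) (r a L n : ℕ) (G : ℕ → K) :
    T (j + 1) r a L (fun k => g n k * G k) =
      ∑ s ∈ range (n + 1), (q ^ (s ^ 2) * (1 - q) ^ (n - s) * h n s) *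
        T j r a L (fun k => g s k * G k) := by
  apply T_expand
  intro k
  rw [← up, wt_succ]
  ring

theorem T_down (j : ℤ) (r a L n : ℕ) (G : ℕ → K) :
    T j r a L (fun k => g n k * G k) =
      ∑ s ∈ range (n + 1), (q ^ (-(((n ^ 2 : ℕ)) : ℤ)) * ((-1) ^ (n - s) *
        q ^ ((n - s) * (n - s - 1) / 2) * (1 - q) ^ (n - s) * h n s)) *
        T (j + 1) r a L (fun k => g s k * G k) := by
  apply T_expand
  intro k
  have h1 : ∑ s ∈ range (n + 1), q ^ (-(((n ^ 2 : ℕ)) : ℤ)) * ((-1) ^ (n - s) *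
        q ^ ((n - s) * (n - s - 1) / 2) * (1 - q) ^ (n - s) * h n s) * g s k =
      q ^ (-(((n ^ 2 : ℕ)) : ℤ)) * ∑ s ∈ range (n + 1), (-1) ^ (n - s) *
        q ^ ((n - s) * (n - s - 1) / 2) * (1 - q) ^ (n - s) * h n s * g s k := by
    rw [Finset.mul_sum]
    refine Finset.sum_congr rfl fun s _ => ?_
    ring
  rw [h1, wt_succ]
  have h2 := down n k
  have h3 : q ^ (-(((n ^ 2 : ℕ)) : ℤ)) * q ^ (n ^ 2) = 1 := by
    rw [zpow_neg, zpow_natCast, inv_mul_cancel₀ (pow_ne_zero _ q_ne)]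
  calc wt j r k * (g n k * G k)
      = (q ^ (-(((n ^ 2 : ℕ)) : ℤ)) * q ^ (n ^ 2)) * (wt j r k * (g n k * G k)) := by
        rw [h3, one_mul]
    _ = q ^ (-(((n ^ 2 : ℕ)) : ℤ)) * (wt j r k) * (q ^ (n ^ 2) * g n k) * G k := by ring
    _ = _ := by rw [h2]; ring

theorem qf_h (a n s : ℕ) (hs : s ≤ n) (has : a ≤ s) :
    qf (n - a) * h n s = qb (n - a) (s - a) * qf (s - a) := by
  rw [h, if_pos hs, qb_eq (show s - a ≤ n - a by omega)]
  have e1 : n - a - (s - a) = n - s := by omega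
  rw [e1]
  have := qf_ne (n - s)
  have := qf_ne (s - a)
  field_simp

theorem qf_ratio (n s : ℕ) (hs : s ≤ n) : qf n = qb n s * qf (n - s) * qf s := by
  rw [qb_eq hs]
  have := qf_ne (n - s)
  have := qf_ne s
  field_simp

theorem single_L (r a L : ℕ) (j : ℤ) : ∀ n, a ≤ n → n < L → 1 ≤ n + a →
    IsL (qf (n - a) * qf (n + a - 1) * T j r a L (g n)) := by
  have hG : ∀ (j : ℤ) (n : ℕ), T j r a L (g n) = T j r a L (fun k => g n k * (fun _ => (1 : K)) k) :=
    fun j n => T_congr _ _ _ _ fun k => by simp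
  induction j using Int.induction_on with
  | zero =>
    intro n h1 h2 h3
    rw [T_g_eq_Z]
    exact (Z_NN a L 0 (Or.inl rfl) r 0 n h1 h2 h3).isL
  | succ i ih =>
    intro n h1 h2 h3
    rw [hG, T_up, Finset.mul_sum]
    refine IsG.sum _ _ fun s hs => ?_
    have hs' : s ≤ n := Nat.lt_succ_iff.1 (Finset.mem_range.1 hs)
    by_cases h4 : s < a ∨ s + a = 0
    · rw [T_zero_of_lt _ _ _ _ _ _ h4, mul_zero, mul_zero]
      exact IsG.zero
    · push Not at h4
      rw [← hG]
      have h5 := ih s h4.1 (by omega) (by omega)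
      have h6 : qf (n - a) * qf (n + a - 1) * (q ^ (s ^ 2) * (1 - q) ^ (n - s) * h n s *
          T (i : ℤ) r a L (g s)) =
          q ^ (s ^ 2) * (1 - q) ^ (n - s) * qb (n - a) (s - a) *
            (qb (n + a - 1) (s + a - 1) * qf (n + a - 1 - (s + a - 1))) *
            (qf (s - a) * qf (s + a - 1) * T (i : ℤ) r a L (g s)) := by
        rw [qf_ratio (n + a - 1) (s + a - 1) (by omega)]
        have := qf_h a n s hs' h4.1
        linear_combination (qb (n + a - 1) (s + a - 1) * qf (n + a - 1 - (s + a - 1)) *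
          qf (s + a - 1) * (q ^ (s ^ 2) * (1 - q) ^ (n - s)) * T (i : ℤ) r a L (g s)) * this
      rw [h6]
      exact ((((IsG.q_pow _).mul (IsG.pow IsL.one_sub_q _)).mul (IsG.qb _ _)).mul
        ((IsG.qb _ _).mul (IsG.qf _))).mul h5
  | pred i ih =>
    intro n h1 h2 h3
    rw [hG, T_down, Finset.mul_sum]
    refine IsG.sum _ _ fun s hs => ?_
    have hs' : s ≤ n := Nat.lt_succ_iff.1 (Finset.mem_range.1 hs)
    by_cases h4 : s < a ∨ s + a = 0
    · rw [T_zero_of_lt _ _ _ _ _ _ h4, mul_zero, mul_zero]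
      exact IsG.zero
    · push Not at h4
      rw [← hG]
      have e0 : -(i : ℤ) - 1 + 1 = -(i : ℤ) := by ring
      rw [e0]
      have h5 := ih s h4.1 (by omega) (by omega)
      have h6 : qf (n - a) * qf (n + a - 1) * (q ^ (-(((n ^ 2 : ℕ)) : ℤ)) * ((-1) ^ (n - s) *
          q ^ ((n - s) * (n - s - 1) / 2) * (1 - q) ^ (n - s) * h n s) *
          T (-(i : ℤ)) r a L (g s)) =
          q ^ (-(((n ^ 2 : ℕ)) : ℤ)) * ((-1) ^ (n - s) *
          q ^ ((n - s) * (n - s - 1) / 2) * (1 - q) ^ (n - s)) * qb (n - a) (s - a) *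
            (qb (n + a - 1) (s + a - 1) * qf (n + a - 1 - (s + a - 1))) *
            (qf (s - a) * qf (s + a - 1) * T (-(i : ℤ)) r a L (g s)) := by
        rw [qf_ratio (n + a - 1) (s + a - 1) (by omega)]
        have := qf_h a n s hs' h4.1
        linear_combination (qb (n + a - 1) (s + a - 1) * qf (n + a - 1 - (s + a - 1)) *
          qf (s + a - 1) * (q ^ (-(((n ^ 2 : ℕ)) : ℤ)) * ((-1) ^ (n - s) *
          q ^ ((n - s) * (n - s - 1) / 2) * (1 - q) ^ (n - s))) * T (-(i : ℤ)) r a L (g s)) * this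
      rw [h6]
      exact ((((IsG.q_zpow _).mul (((IsG.pow IsL.neg_one _).mul (IsG.q_pow _)).mul
        (IsG.pow IsL.one_sub_q _))).mul (IsG.qb _ _)).mul ((IsG.qb _ _).mul (IsG.qf _))).mul h5

/-- product of the functions `g` over a list -/
def Gl (l : List ℕ) (k : ℕ) : K := (l.map fun y => g y k).prod

/-- the normalising factor -/
def B (a : ℕ) : ℕ → List ℕ → K
  | n, [] => qf (n + a - 1)
  | n, y :: l => qf (n + y) * B a y l

/-- the normalised sum -/
def S (r a L : ℕ) (n : ℕ) (l : List ℕ) (j : ℤ) : K :=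
  qf (n - a) * B a n l * T j r a L (fun k => g n k * Gl l k)

theorem B_ratio {R : Type} [CommSemiring R] {f : R →+* ℚ} (a : ℕ) (l : List ℕ) (y s : ℕ)
    (hs : s ≤ y) (h1 : 1 ≤ s + a) :
    ∃ R : K, IsG f R ∧ B a y l * h y s = R * B a s l := by
  cases l with
  | nil =>
    refine ⟨qb (y + a - 1) (s + a - 1), IsG.qb _ _, ?_⟩
    rw [B, B, h, if_pos hs, qf_ratio (y + a - 1) (s + a - 1) (by omega)]
    have e1 : y + a - 1 - (s + a - 1) = y - s := by omega
    rw [e1]
    have := qf_ne (y - s)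
    field_simp
  | cons z l =>
    refine ⟨qb (y + z) (s + z), IsG.qb _ _, ?_⟩
    rw [B, B, h, if_pos hs, qf_ratio (y + z) (s + z) (by omega)]
    have e1 : y + z - (s + z) = y - s := by omega
    rw [e1]
    have := qf_ne (y - s)
    field_simp

/-- the two merging formulas for the sums -/
theorem T_merge1 (j : ℤ) (r a L n y : ℕ) (G : ℕ → K) :
    qf (n + y) * T (j + 1) r a L (fun k => g n k * (g y k * G k)) =
      ∑ s ∈ range (y + 1), (q ^ (s ^ 2) * h n s * h y s) * T j r a L (fun k => g s k * G k) := by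
  have h1 : qf (n + y) * T (j + 1) r a L (fun k => g n k * (g y k * G k)) =
      T (j + 1) r a L (fun k => qf (n + y) * (g n k * (g y k * G k))) := by
    rw [T, T, Finset.mul_sum]
    refine Finset.sum_congr rfl fun k _ => ?_
    ring
  rw [h1]
  apply T_expand
  intro k
  rw [← merge1, wt_succ]
  ring

theorem T_merge2 (j : ℤ) (r a L n y : ℕ) (G : ℕ → K) :
    qf (n + y) * T j r a L (fun k => g n k * (g y k * G k)) =
      ∑ s ∈ range (y + 1), (q ^ ((n - s) * (y - s)) * h n s * h y s) *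
        T j r a L (fun k => g s k * G k) := by
  have h1 : qf (n + y) * T j r a L (fun k => g n k * (g y k * G k)) =
      T j r a L (fun k => qf (n + y) * (g n k * (g y k * G k))) := by
    rw [T, T, Finset.mul_sum]
    refine Finset.sum_congr rfl fun k _ => ?_
    ring
  rw [h1]
  apply T_expand
  intro k
  rw [← merge2]
  ring

/-- one merging step -/
theorem S_step {R : Type} [CommSemiring R] {f : R →+* ℚ} (r a L n y : ℕ) (l : List ℕ) (j j' : ℤ)
    (c : ℕ → K) (hc : ∀ s, IsG f (c s))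
    (hT : qf (n + y) * T j r a L (fun k => g n k * (g y k * Gl l k)) =
      ∑ s ∈ range (y + 1), (c s * h n s * h y s) * T j' r a L (fun k => g s k * Gl l k))
    (ih : ∀ s, a ≤ s → s ≤ n → 1 ≤ s + a → IsG f (S r a L s l j')) :
    IsG f (S r a L n (y :: l) j) := by
  have h1 : S r a L n (y :: l) j = qf (n - a) * B a y l *
      (qf (n + y) * T j r a L (fun k => g n k * (g y k * Gl l k))) := by
    rw [S, B]
    have : T j r a L (fun k => g n k * Gl (y :: l) k) =
        T j r a L (fun k => g n k * (g y k * Gl l k)) :=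
      T_congr _ _ _ _ fun k => by rw [Gl, Gl, List.map_cons, List.prod_cons]
    rw [this]; ring
  rw [h1, hT, Finset.mul_sum]
  refine IsG.sum _ _ fun s hs => ?_
  have hs' : s ≤ y := Nat.lt_succ_iff.1 (Finset.mem_range.1 hs)
  by_cases h4 : s < a ∨ s + a = 0
  · rw [T_zero_of_lt _ _ _ _ _ _ h4, mul_zero, mul_zero]
    exact IsG.zero
  · push Not at h4
    by_cases h5 : s ≤ n
    · obtain ⟨R, hR, hR2⟩ := B_ratio (f := f) a l y s hs' (by omega)
      have h6 : qf (n - a) * B a y l * (c s * h n s * h y s *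
          T j' r a L (fun k => g s k * Gl l k)) =
          c s * qb (n - a) (s - a) * R * S r a L s l j' := by
        rw [S]
        have h7 := qf_h a n s h5 h4.1
        linear_combination (c s * B a y l * h y s *
          T j' r a L (fun k => g s k * Gl l k)) * h7 +
          (c s * qb (n - a) (s - a) * qf (s - a) *
          T j' r a L (fun k => g s k * Gl l k)) * hR2
      rw [h6]
      exact (((hc s).mul (IsG.qb _ _)).mul hR).mul (ih s h4.1 h5 (by omega))
    · rw [h_zero (show n < s by omega)]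
      have : qf (n - a) * B a y l * (c s * 0 * h y s *
          T j' r a L (fun k => g s k * Gl l k)) = 0 := by ring
      rw [this]
      exact IsG.zero

theorem S_nil (r a L n : ℕ) (j : ℤ) :
    S r a L n [] j = qf (n - a) * qf (n + a - 1) * T j r a L (g n) := by
  rw [S, B]
  congr 1
  exact T_congr _ _ _ _ fun k => by simp [Gl]

theorem S_L (r a L : ℕ) : ∀ (l : List ℕ) (n : ℕ) (j : ℤ), a ≤ n → n < L → 1 ≤ n + a →
    IsL (S r a L n l j) := by
  intro l
  induction l with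
  | nil =>
    intro n j h1 h2 h3
    rw [S_nil]
    exact single_L r a L j n h1 h2 h3
  | cons y l ih =>
    intro n j h1 h2 h3
    exact S_step r a L n y l j j (fun s => q ^ ((n - s) * (y - s))) (fun s => IsG.q_pow _)
      (T_merge2 j r a L n y (Gl l)) (fun s hs1 hs2 hs3 => ih s j hs1 (by omega) hs3)

theorem S_NN (r a L : ℕ) : ∀ (l : List ℕ) (n : ℕ) (j : ℤ), 0 ≤ j → j ≤ l.length + 1 →
    a ≤ n → n < L → 1 ≤ n + a → IsNN (S r a L n l j) := by
  intro l
  induction l with
  | nil =>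
    intro n j hj1 hj2 h1 h2 h3
    rw [S_nil, T_g_eq_Z]
    simp only [List.length_nil, Nat.cast_zero, zero_add] at hj2
    exact Z_NN a L j (by omega) r 0 n h1 h2 h3
  | cons y l ih =>
    intro n j hj1 hj2 h1 h2 h3
    rw [List.length_cons] at hj2
    push_cast at hj2
    by_cases hj : j ≤ l.length + 1
    · exact S_step r a L n y l j j (fun s => q ^ ((n - s) * (y - s))) (fun s => IsG.q_pow _)
        (T_merge2 j r a L n y (Gl l)) (fun s hs1 hs2 hs3 => ih s j hj1 hj hs1 (by omega) hs3)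
    · obtain ⟨i, rfl⟩ : ∃ i : ℤ, j = i + 1 := ⟨j - 1, by ring⟩
      exact S_step r a L n y l (i + 1) i (fun s => q ^ (s ^ 2)) (fun s => IsG.q_pow _)
        (T_merge1 i r a L n y (Gl l))
        (fun s hs1 hs2 hs3 => ih s i (by omega) (by omega) hs1 (by omega) hs3)

/-! ### back to the cyclic product -/

theorem B_ofFn (a : ℕ) : ∀ (M : ℕ) (n : Fin (M + 1) → ℕ),
    B a (n 0) (List.ofFn fun i : Fin M => n i.succ) =
      (∏ i : Fin M, qf (n i.succ + n i.castSucc)) * qf (n (Fin.last M) + a - 1) := by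
  intro M
  induction M with
  | zero => intro n; simp [B]
  | succ M ih =>
    intro n
    rw [List.ofFn_succ, B, Fin.prod_univ_succ]
    have h1 := ih (fun i => n i.succ)
    rw [h1]
    have e1 : n (Fin.castSucc (0 : Fin (M + 1))) = n 0 := rfl
    rw [e1, add_comm (n 0)]
    simp only [Fin.succ_last, Fin.succ_castSucc]
    ring

theorem Gl_ofFn (M : ℕ) (n : Fin M → ℕ) (k : ℕ) :
    Gl (List.ofFn n) k = ∏ i, g (n i) k := by
  rw [Gl, List.map_ofFn, List.prod_ofFn]
  rfl

theorem cyc_prod (M : ℕ) (n : Fin (M + 1) → ℕ) (k : ℕ) :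
    ∏ i, qb (n (i + 1) + n i) (k + n i) = (∏ i, qf (n (i + 1) + n i)) * ∏ i, g (n i) k := by
  by_cases hk : ∀ i, k ≤ n i
  · have h1 : ∀ i, qb (n (i + 1) + n i) (k + n i) =
        qf (n (i + 1) + n i) * ((qf (n i + k))⁻¹ * (qf (n (i + 1) - k))⁻¹) := by
      intro i
      have := hk (i + 1)
      rw [qb_eq (by omega)]
      have e1 : n (i + 1) + n i - (k + n i) = n (i + 1) - k := by omega
      rw [e1, add_comm k (n i)]
      have := qf_ne (n i + k)
      have := qf_ne (n (i + 1) - k)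
      field_simp
    have h2 : ∀ i, g (n i) k = (qf (n i + k))⁻¹ * (qf (n i - k))⁻¹ := by
      intro i
      rw [g, if_pos (hk i), mul_inv]
    rw [Finset.prod_congr rfl fun i _ => h1 i, Finset.prod_congr rfl fun i _ => h2 i,
      Finset.prod_mul_distrib, Finset.prod_mul_distrib, Finset.prod_mul_distrib]
    congr 2
    exact Equiv.prod_comp (Equiv.addRight (1 : Fin (M + 1))) (fun i => (qf (n i - k))⁻¹)
  · push Not at hk
    obtain ⟨i0, hi0⟩ := hk
    rw [Finset.prod_eq_zero (f := fun i => g (n i) k) (Finset.mem_univ i0) (g_zero hi0), mul_zero]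
    apply Finset.prod_eq_zero (Finset.mem_univ (i0 - 1))
    have e1 : i0 - 1 + 1 = i0 := sub_add_cancel i0 1
    rw [e1]
    exact qb_eq_zero (by omega)

/-- the quotient of the problem is the normalised sum -/
theorem quotient_eq (M : ℕ) (n : Fin (M + 1) → ℕ) (hn : ∀ i, 1 ≤ n i) (j : ℤ) (a r : ℕ)
    (ha : a ≤ n 0) :
    (∑ k ∈ Icc a (n 0), wt j r k * ∏ i, qb (n (i + 1) + n i) (k + n i)) /
      (qn (n (Fin.last M) + a) * qb (n (Fin.last M) + n 0) (n 0 - a)) =
    S r a (∑ i, n i + 1) (n 0) (List.ofFn fun i : Fin M => n i.succ) j := by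
  have hle : ∀ i, n i ≤ ∑ i, n i := fun i =>
    Finset.single_le_sum (f := n) (fun _ _ => Nat.zero_le _) (Finset.mem_univ i)
  have h1 : ∑ k ∈ Icc a (n 0), wt j r k * ∏ i, qb (n (i + 1) + n i) (k + n i) =
      (∏ i, qf (n (i + 1) + n i)) * T j r a (∑ i, n i + 1)
        (fun k => g (n 0) k * Gl (List.ofFn fun i : Fin M => n i.succ) k) := by
    have h2 : ∀ k, wt j r k * ∏ i, qb (n (i + 1) + n i) (k + n i) =
        (∏ i, qf (n (i + 1) + n i)) *
          (wt j r k * (g (n 0) k * Gl (List.ofFn fun i : Fin M => n i.succ) k)) := by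
      intro k
      rw [cyc_prod, Gl_ofFn, Fin.prod_univ_succ (fun i => g (n i) k)]
      ring
    rw [Finset.sum_congr rfl fun k _ => h2 k, ← Finset.mul_sum, T]
    congr 1
    apply Finset.sum_subset
    · intro k hk
      rw [Finset.mem_Icc] at hk
      rw [Finset.mem_Ico]
      have := hle 0
      omega
    · intro k hk hk2
      rw [Finset.mem_Ico] at hk
      rw [Finset.mem_Icc] at hk2
      rw [g_zero (by omega)]
      ring
  rw [h1, S, B_ofFn]
  have h3 : ∏ i, qf (n (i + 1) + n i) =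
      (∏ i : Fin M, qf (n i.succ + n i.castSucc)) * qf (n (Fin.last M) + n 0) := by
    rw [Fin.prod_univ_castSucc]
    congr 1
    · refine Finset.prod_congr rfl fun i _ => ?_
      rw [Fin.coeSucc_eq_succ]
    · rw [Fin.last_add_one, add_comm]
  rw [h3, qb_eq (show n 0 - a ≤ n (Fin.last M) + n 0 by omega)]
  have e1 : n (Fin.last M) + n 0 - (n 0 - a) = n (Fin.last M) + a := by omega
  rw [e1]
  have hl := hn (Fin.last M)
  obtain ⟨c, hc⟩ := Nat.exists_eq_succ_of_ne_zero (show n (Fin.last M) + a ≠ 0 by omega)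
  rw [hc, Nat.succ_eq_add_one, qf_succ, Nat.add_sub_cancel]
  have := qf_ne c
  have := qn_succ_ne c
  have := qf_ne (n 0 - a)
  have := qf_ne (n (Fin.last M) + n 0)
  field_simp

/-- **Main theorem.** -/
theorem main (M : ℕ) (n : Fin (M + 1) → ℕ) (hn : ∀ i, 1 ≤ n i) (j : ℤ) (a r : ℕ)
    (ha : a ≤ n 0) :
    IsL ((∑ k ∈ Icc a (n 0), wt j r k * ∏ i, qb (n (i + 1) + n i) (k + n i)) /
      (qn (n (Fin.last M) + a) * qb (n (Fin.last M) + n 0) (n 0 - a))) ∧
    (0 ≤ j → j ≤ M + 1 →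
      IsNN ((∑ k ∈ Icc a (n 0), wt j r k * ∏ i, qb (n (i + 1) + n i) (k + n i)) /
      (qn (n (Fin.last M) + a) * qb (n (Fin.last M) + n 0) (n 0 - a)))) := by
  have hle : n 0 ≤ ∑ i, n i :=
    Finset.single_le_sum (f := n) (fun _ _ => Nat.zero_le _) (Finset.mem_univ 0)
  have h0 := hn 0
  rw [quotient_eq M n hn j a r ha]
  refine ⟨S_L r a _ _ _ j ha (by omega) (by omega), fun h1 h2 => ?_⟩
  refine S_NN r a _ _ _ j h1 ?_ ha (by omega) (by omega)
  rw [List.length_ofFn]
  exact h2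

end

end Pool.Agent.R859.QB
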