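import Pool.Agent.R859.QB.Basic

/-!
# The four reduction formulas, and Laurent polynomials inside `ℚ(q)`
-/

set_option autoImplicit false

open Finset

namespace Pool.Agent.R859.QB

noncomputable section

/-- `1/([n+k]! [n-k]!)`, zero for `k > n` -/
def g (n k : ℕ) : K := if k ≤ n then (qf (n + k) * qf (n - k))⁻¹ else 0

/-- `1/[n-s]!`, zero for `s > n` -/
def h (n s : ℕ) : K := if s ≤ n then (qf (n - s))⁻¹ else 0

theorem g_zero {n k : ℕ} (hk : n < k) : g n k = 0 := by rw [g, if_neg (by omega)]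

theorem h_zero {n s : ℕ} (hk : n < s) : h n s = 0 := by rw [h, if_neg (by omega)]

theorem reindex (F : ℕ → K) (k N : ℕ) :
    ∑ s ∈ range (k + N + 1), F s * g s k =
      ∑ i ∈ range (N + 1), F (k + i) * (qf (2 * k + i) * qf i)⁻¹ := by
  rw [add_assoc, Finset.sum_range_add, Finset.sum_eq_zero, zero_add]
  · refine Finset.sum_congr rfl fun i _ => ?_
    rw [g, if_pos (by omega)]
    have e1 : k + i + k = 2 * k + i := by ring
    have e2 : k + i - k = i := by omega
    rw [e1, e2]
  · intro s hs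
    rw [g_zero (Finset.mem_range.1 hs), mul_zero]

theorem sum_zero_of_lt (F : ℕ → K) {k n : ℕ} (hk : n < k) :
    ∑ s ∈ range (n + 1), F s * g s k = 0 := by
  refine Finset.sum_eq_zero fun s hs => ?_
  rw [g_zero (by have := Finset.mem_range.1 hs; omega), mul_zero]

theorem h_mul_inv (M i k : ℕ) : h (k + M) (k + i) * (qf i)⁻¹ = qb M i / qf M := by
  by_cases hi : i ≤ M
  · rw [h, if_pos (by omega), qb_eq hi]
    have e1 : k + M - (k + i) = M - i := by omega
    rw [e1]
    have := qf_ne M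
    have := qf_ne i
    have := qf_ne (M - i)
    field_simp
  · rw [h_zero (by omega), qb_eq_zero (by omega)]
    ring

theorem g_self (k M : ℕ) : g (k + M) k = (qf (M + 2 * k) * qf M)⁻¹ := by
  rw [g, if_pos (by omega)]
  have e1 : k + M + k = M + 2 * k := by ring
  have e2 : k + M - k = M := by omega
  rw [e1, e2]

/-- merging two indices, lowering the exponent -/
theorem merge1 (m n k : ℕ) :
    q ^ (k ^ 2) * (g m k * g n k * qf (m + n)) =
      ∑ s ∈ range (n + 1), q ^ (s ^ 2) * h m s * h n s * g s k := by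
  by_cases hn : k ≤ n
  swap
  · rw [g_zero (show n < k by omega),
      sum_zero_of_lt (fun s => q ^ (s ^ 2) * h m s * h n s) (by omega)]
    ring
  by_cases hm : k ≤ m
  swap
  · rw [g_zero (show m < k by omega)]
    symm
    rw [zero_mul, zero_mul, mul_zero]
    refine Finset.sum_eq_zero fun s _ => ?_
    by_cases hs : s < k
    · rw [g_zero hs, mul_zero]
    · rw [h_zero (show m < s by omega)]; ring
  obtain ⟨M, rfl⟩ := Nat.exists_eq_add_of_le hm
  obtain ⟨N, rfl⟩ := Nat.exists_eq_add_of_le hn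
  rw [reindex (fun s => q ^ (s ^ 2) * h (k + M) s * h (k + N) s) k N]
  have hV := vand1 M N (2 * k)
  have h1 : ∑ i ∈ range (N + 1), q ^ ((k + i) ^ 2) * h (k + M) (k + i) * h (k + N) (k + i) *
      (qf (2 * k + i) * qf i)⁻¹ = q ^ (k ^ 2) / (qf M * qf (N + 2 * k)) *
      ∑ i ∈ range (N + 1), q ^ (i * (2 * k + i)) * qb M i * qb (N + 2 * k) (N - i) := by
    rw [Finset.mul_sum]
    refine Finset.sum_congr rfl fun i hi => ?_
    have hi' : i ≤ N := Nat.lt_succ_iff.1 (Finset.mem_range.1 hi)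
    have e1 : q ^ ((k + i) ^ 2) = q ^ (k ^ 2) * q ^ (i * (2 * k + i)) := by
      rw [← pow_add]; congr 1; ring
    have e2 : h (k + N) (k + i) = (qf (N - i))⁻¹ := by
      rw [h, if_pos (by omega)]; congr 2; omega
    have e3 := h_mul_inv M i k
    have e4 : qb (N + 2 * k) (N - i) = qf (N + 2 * k) / (qf (N - i) * qf (2 * k + i)) := by
      rw [qb_eq (by omega)]; congr 3; omega
    have := qf_ne M
    have := qf_ne (N + 2 * k)
    have := qf_ne (N - i)
    have := qf_ne (2 * k + i)
    have := qf_ne i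
    calc q ^ ((k + i) ^ 2) * h (k + M) (k + i) * h (k + N) (k + i) * (qf (2 * k + i) * qf i)⁻¹
        = q ^ (k ^ 2) * q ^ (i * (2 * k + i)) * (h (k + M) (k + i) * (qf i)⁻¹) *
          (qf (N - i))⁻¹ * (qf (2 * k + i))⁻¹ := by
          rw [e1, e2, mul_inv]; ring
      _ = _ := by
          rw [e3, e4]
          field_simp
  rw [h1, hV, g_self, g_self, qb_eq (show N ≤ M + N + 2 * k by omega)]
  have e5 : M + N + 2 * k - N = M + 2 * k := by omega
  have e6 : k + M + (k + N) = M + N + 2 * k := by ring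
  rw [e5, e6]
  have := qf_ne M
  have := qf_ne N
  have := qf_ne (N + 2 * k)
  have := qf_ne (M + 2 * k)
  field_simp

/-- merging two indices, keeping the exponent -/
theorem merge2 (m n k : ℕ) :
    g m k * g n k * qf (m + n) =
      ∑ s ∈ range (n + 1), q ^ ((m - s) * (n - s)) * h m s * h n s * g s k := by
  by_cases hn : k ≤ n
  swap
  · rw [g_zero (show n < k by omega),
      sum_zero_of_lt (fun s => q ^ ((m - s) * (n - s)) * h m s * h n s) (by omega)]
    ring
  by_cases hm : k ≤ m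
  swap
  · rw [g_zero (show m < k by omega)]
    symm
    rw [zero_mul, zero_mul]
    refine Finset.sum_eq_zero fun s _ => ?_
    by_cases hs : s < k
    · rw [g_zero hs, mul_zero]
    · rw [h_zero (show m < s by omega)]; ring
  obtain ⟨M, rfl⟩ := Nat.exists_eq_add_of_le hm
  obtain ⟨N, rfl⟩ := Nat.exists_eq_add_of_le hn
  rw [reindex (fun s => q ^ ((k + M - s) * (k + N - s)) * h (k + M) s * h (k + N) s) k N]
  have hV := vand2 M (N + 2 * k) N
  have h1 : ∑ i ∈ range (N + 1), q ^ ((k + M - (k + i)) * (k + N - (k + i))) *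
      h (k + M) (k + i) * h (k + N) (k + i) *
      (qf (2 * k + i) * qf i)⁻¹ = 1 / (qf M * qf (N + 2 * k)) *
      ∑ i ∈ range (N + 1), q ^ ((M - i) * (N - i)) * qb M i * qb (N + 2 * k) (N - i) := by
    rw [Finset.mul_sum]
    refine Finset.sum_congr rfl fun i hi => ?_
    have hi' : i ≤ N := Nat.lt_succ_iff.1 (Finset.mem_range.1 hi)
    have e1 : k + M - (k + i) = M - i := by omega
    have e1' : k + N - (k + i) = N - i := by omega
    have e2 : h (k + N) (k + i) = (qf (N - i))⁻¹ := by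
      rw [h, if_pos (by omega), e1']
    have e3 := h_mul_inv M i k
    have e4 : qb (N + 2 * k) (N - i) = qf (N + 2 * k) / (qf (N - i) * qf (2 * k + i)) := by
      rw [qb_eq (by omega)]; congr 3; omega
    have := qf_ne M
    have := qf_ne (N + 2 * k)
    have := qf_ne (N - i)
    have := qf_ne (2 * k + i)
    have := qf_ne i
    calc q ^ ((k + M - (k + i)) * (k + N - (k + i))) * h (k + M) (k + i) * h (k + N) (k + i) *
          (qf (2 * k + i) * qf i)⁻¹
        = q ^ ((M - i) * (N - i)) * (h (k + M) (k + i) * (qf i)⁻¹) *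
          (qf (N - i))⁻¹ * (qf (2 * k + i))⁻¹ := by
          rw [e1, e1', e2, mul_inv]; ring
      _ = _ := by
          rw [e3, e4]
          field_simp
  rw [h1, hV, g_self, g_self, qb_eq (show N ≤ M + (N + 2 * k) by omega)]
  have e5 : M + (N + 2 * k) - N = M + 2 * k := by omega
  have e6 : k + M + (k + N) = M + (N + 2 * k) := by ring
  rw [e5, e6]
  have := qf_ne M
  have := qf_ne N
  have := qf_ne (N + 2 * k)
  have := qf_ne (M + 2 * k)
  field_simp

/-- raising the exponent -/
theorem up (n k : ℕ) :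
    q ^ (k ^ 2) * g n k =
      ∑ s ∈ range (n + 1), q ^ (s ^ 2) * (1 - q) ^ (n - s) * h n s * g s k := by
  by_cases hn : k ≤ n
  swap
  · rw [g_zero (show n < k by omega),
      sum_zero_of_lt (fun s => q ^ (s ^ 2) * (1 - q) ^ (n - s) * h n s) (by omega)]
    ring
  obtain ⟨N, rfl⟩ := Nat.exists_eq_add_of_le hn
  rw [reindex (fun s => q ^ (s ^ 2) * (1 - q) ^ (k + N - s) * h (k + N) s) k N]
  have hV := sum3 N (2 * k)
  have h1 : ∑ i ∈ range (N + 1), q ^ ((k + i) ^ 2) * (1 - q) ^ (k + N - (k + i)) *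
      h (k + N) (k + i) * (qf (2 * k + i) * qf i)⁻¹ = q ^ (k ^ 2) / (qf N * qf (N + 2 * k)) *
      ∑ i ∈ range (N + 1), q ^ (i * (i + 2 * k)) * qb N i * (1 - q) ^ (N - i) *
      (qf (N + 2 * k) / qf (2 * k + i)) := by
    rw [Finset.mul_sum]
    refine Finset.sum_congr rfl fun i hi => ?_
    have hi' : i ≤ N := Nat.lt_succ_iff.1 (Finset.mem_range.1 hi)
    have e1 : q ^ ((k + i) ^ 2) = q ^ (k ^ 2) * q ^ (i * (i + 2 * k)) := by
      rw [← pow_add]; congr 1; ring
    have e1' : k + N - (k + i) = N - i := by omega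
    have e3 := h_mul_inv N i k
    have := qf_ne N
    have := qf_ne (N + 2 * k)
    have := qf_ne (2 * k + i)
    have := qf_ne i
    calc q ^ ((k + i) ^ 2) * (1 - q) ^ (k + N - (k + i)) *
          h (k + N) (k + i) * (qf (2 * k + i) * qf i)⁻¹
        = q ^ (k ^ 2) * q ^ (i * (i + 2 * k)) * (h (k + N) (k + i) * (qf i)⁻¹) *
          (1 - q) ^ (N - i) * (qf (2 * k + i))⁻¹ := by
          rw [e1, e1', mul_inv]; ring
      _ = _ := by
          rw [e3]
          field_simp
  rw [h1, hV, g_self]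
  have := qf_ne N
  have := qf_ne (N + 2 * k)
  field_simp

/-- lowering the exponent -/
theorem down (n k : ℕ) :
    q ^ (n ^ 2) * g n k = q ^ (k ^ 2) *
      ∑ s ∈ range (n + 1), (-1) ^ (n - s) * q ^ ((n - s) * (n - s - 1) / 2) *
        (1 - q) ^ (n - s) * h n s * g s k := by
  by_cases hn : k ≤ n
  swap
  · rw [g_zero (show n < k by omega),
      sum_zero_of_lt (fun s => (-1) ^ (n - s) * q ^ ((n - s) * (n - s - 1) / 2) *
        (1 - q) ^ (n - s) * h n s) (by omega)]
    ring
  obtain ⟨N, rfl⟩ := Nat.exists_eq_add_of_le hn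
  rw [reindex (fun s => (-1) ^ (k + N - s) * q ^ ((k + N - s) * (k + N - s - 1) / 2) *
        (1 - q) ^ (k + N - s) * h (k + N) s) k N]
  have hV := sum4 N (2 * k)
  have h1 : ∑ i ∈ range (N + 1), (-1) ^ (k + N - (k + i)) *
        q ^ ((k + N - (k + i)) * (k + N - (k + i) - 1) / 2) * (1 - q) ^ (k + N - (k + i)) *
      h (k + N) (k + i) * (qf (2 * k + i) * qf i)⁻¹ = 1 / (qf N * qf (N + 2 * k)) *
      ∑ i ∈ range (N + 1), (-1) ^ (N - i) * q ^ ((N - i) * (N - i - 1) / 2) * qb N i *
      (1 - q) ^ (N - i) * (qf (N + 2 * k) / qf (2 * k + i)) := by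
    rw [Finset.mul_sum]
    refine Finset.sum_congr rfl fun i hi => ?_
    have hi' : i ≤ N := Nat.lt_succ_iff.1 (Finset.mem_range.1 hi)
    have e1' : k + N - (k + i) = N - i := by omega
    have e3 := h_mul_inv N i k
    have := qf_ne N
    have := qf_ne (N + 2 * k)
    have := qf_ne (2 * k + i)
    have := qf_ne i
    rw [e1']
    calc (-1) ^ (N - i) * q ^ ((N - i) * (N - i - 1) / 2) * (1 - q) ^ (N - i) *
          h (k + N) (k + i) * (qf (2 * k + i) * qf i)⁻¹
        = (-1) ^ (N - i) * q ^ ((N - i) * (N - i - 1) / 2) * (h (k + N) (k + i) * (qf i)⁻¹) *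
          (1 - q) ^ (N - i) * (qf (2 * k + i))⁻¹ := by
          rw [mul_inv]; ring
      _ = _ := by
          rw [e3]
          field_simp
  rw [h1, hV, g_self]
  have e7 : q ^ ((k + N) ^ 2) = q ^ (k ^ 2) * q ^ (N * (N + 2 * k)) := by
    rw [← pow_add]; congr 1; ring
  rw [e7]
  have := qf_ne N
  have := qf_ne (N + 2 * k)
  field_simp

/-- `x` is a Laurent polynomial in `q` with coefficients in the image of `f` -/
def IsG {R : Type} [CommSemiring R] (f : R →+* ℚ) (x : K) : Prop :=
  ∃ (N : ℕ) (p : Polynomial R), q ^ N * x = algebraMap (Polynomial ℚ) K (p.map f)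

section closure

variable {R : Type} [CommSemiring R] {f : R →+* ℚ}

theorem alg_X_pow (N : ℕ) : algebraMap (Polynomial ℚ) K (Polynomial.X ^ N) = q ^ N := by
  rw [map_pow, RatFunc.algebraMap_X]; rfl

theorem IsG.add {x y : K} (hx : IsG f x) (hy : IsG f y) : IsG f (x + y) := by
  obtain ⟨N, p, hp⟩ := hx
  obtain ⟨M, p', hp'⟩ := hy
  refine ⟨N + M, Polynomial.X ^ M * p + Polynomial.X ^ N * p', ?_⟩
  rw [Polynomial.map_add, Polynomial.map_mul, Polynomial.map_mul, Polynomial.map_pow,
    Polynomial.map_pow, Polynomial.map_X, map_add, map_mul, map_mul, alg_X_pow, alg_X_pow, ← hp,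
    ← hp', pow_add]
  ring

theorem IsG.mul {x y : K} (hx : IsG f x) (hy : IsG f y) : IsG f (x * y) := by
  obtain ⟨N, p, hp⟩ := hx
  obtain ⟨M, p', hp'⟩ := hy
  refine ⟨N + M, p * p', ?_⟩
  rw [Polynomial.map_mul, map_mul, ← hp, ← hp', pow_add]
  ring

theorem IsG.zero : IsG f 0 := ⟨0, 0, by simp⟩

theorem IsG.one : IsG f 1 := ⟨0, 1, by simp⟩

theorem IsG.pow {x : K} (hx : IsG f x) (n : ℕ) : IsG f (x ^ n) := by
  induction n with
  | zero => rw [pow_zero]; exact IsG.one
  | succ n ih => rw [pow_succ]; exact ih.mul hx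

theorem IsG.sum {ι : Type} (s : Finset ι) (F : ι → K) (hF : ∀ i ∈ s, IsG f (F i)) :
    IsG f (∑ i ∈ s, F i) := by
  classical
  induction s using Finset.induction_on with
  | empty => rw [Finset.sum_empty]; exact IsG.zero
  | insert a s ha ih =>
    rw [Finset.sum_insert ha]
    exact (hF a (Finset.mem_insert_self a s)).add
      (ih fun i hi => hF i (Finset.mem_insert_of_mem hi))

theorem IsG.q_pow (n : ℕ) : IsG f (q ^ n) :=
  ⟨0, Polynomial.X ^ n, by rw [Polynomial.map_pow, Polynomial.map_X, alg_X_pow]; simp⟩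

theorem IsG.q_zpow (z : ℤ) : IsG f (q ^ z) := by
  obtain ⟨n, rfl | rfl⟩ := z.eq_nat_or_neg
  · rw [zpow_natCast]; exact IsG.q_pow n
  · refine ⟨n, 1, ?_⟩
    rw [zpow_neg, zpow_natCast, mul_inv_cancel₀ (pow_ne_zero _ q_ne)]
    simp

theorem IsG.qn (n : ℕ) : IsG f (qn n) := IsG.sum _ _ fun i _ => IsG.q_pow i

theorem IsG.qf (n : ℕ) : IsG f (qf n) := by
  induction n with
  | zero => rw [qf_zero]; exact IsG.one
  | succ n ih => rw [qf_succ]; exact ih.mul (IsG.qn _)

theorem IsG.qb : ∀ (n k : ℕ), IsG f (qb n k) := by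
  intro n
  induction n with
  | zero =>
    intro k
    cases k with
    | zero => rw [qb_zero]; exact IsG.one
    | succ k => rw [qb_zero_succ]; exact IsG.zero
  | succ n ih =>
    intro k
    cases k with
    | zero => rw [qb_zero]; exact IsG.one
    | succ k => rw [pascal1]; exact (ih k).add ((IsG.q_pow _).mul (ih _))

end closure

/-- Laurent polynomials with nonnegative integer coefficients -/
def IsNN (x : K) : Prop := IsG (Nat.castRingHom ℚ) x

/-- Laurent polynomials with integer coefficients -/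
def IsL (x : K) : Prop := IsG (Int.castRingHom ℚ) x

theorem IsNN.isL {x : K} (hx : IsNN x) : IsL x := by
  obtain ⟨N, p, hp⟩ := hx
  refine ⟨N, p.map (Nat.castRingHom ℤ), ?_⟩
  rw [hp, Polynomial.map_map]
  congr 2

theorem IsL.neg_one : IsL (-1) :=
  ⟨0, -1, by rw [Polynomial.map_neg, Polynomial.map_one, map_neg, map_one]; simp⟩

theorem IsL.one_sub_q : IsL (1 - q) := by
  rw [sub_eq_add_neg, ← neg_one_mul]
  have h1 : IsG (Int.castRingHom ℚ) (q ^ 1) := IsG.q_pow 1
  rw [pow_one] at h1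
  exact IsG.one.add (IsG.mul IsL.neg_one h1)

end

end Pool.Agent.R859.QB
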